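import Pool.Agent.Helper91.HQ.LIM

/-!
# HQ, part FAT: Fatou
-/

set_option autoImplicit false

open MeasureTheory Filter Topology
open scoped ENNReal NNReal

namespace Pool.Agent.Helper91.HQ.FAT

open Pool.Agent.Helper98.HQ Pool.Agent.Helper91.HQ.LIM

/-- an integral of a function of `⌊x / e⌋₊` with finitely many values -/
theorem lint_le (e : ℝ) (he : 0 < e) (N : ℕ) (K : ℕ → ℝ≥0∞) :
    ∫⁻ x in Set.Ioi (0 : ℝ), (if ⌊x / e⌋₊ < N then K ⌊x / e⌋₊ else 0) ≤
      ∑ n ∈ Finset.range N, ENNReal.ofReal e * K n := by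
  have h1 : ∀ x : ℝ, (if ⌊x / e⌋₊ < N then K ⌊x / e⌋₊ else 0) =
      ∑ n ∈ Finset.range N, (if ⌊x / e⌋₊ = n then K n else 0) := by
    intro x
    rw [Finset.sum_ite_eq (Finset.range N) ⌊x / e⌋₊ K]
    simp only [Finset.mem_range]
  have hmeas : Measurable fun x : ℝ => ⌊x / e⌋₊ := by fun_prop
  simp only [h1]
  have hm : ∀ n ∈ Finset.range N, Measurable fun x : ℝ => if ⌊x / e⌋₊ = n then K n else 0 := by
    intro n _
    exact Measurable.ite (hmeas (MeasurableSet.singleton n)) measurable_const measurable_const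
  rw [lintegral_finsetSum _ hm]
  refine Finset.sum_le_sum fun n _ => ?_
  have h2 : ∀ x : ℝ, (if ⌊x / e⌋₊ = n then K n else 0) =
      Set.indicator {x : ℝ | ⌊x / e⌋₊ = n} (fun _ => K n) x := by
    intro x
    rw [Set.indicator_apply]
    rfl
  simp only [h2]
  have hms : MeasurableSet {x : ℝ | ⌊x / e⌋₊ = n} := hmeas (MeasurableSet.singleton n)
  rw [lintegral_indicator hms, setLIntegral_const, Measure.restrict_apply hms, mul_comm]
  refine mul_le_mul_left ?_ _
  have h3 : {x : ℝ | ⌊x / e⌋₊ = n} ∩ Set.Ioi 0 ⊆ Set.Ico (n * e) (n * e + e) := by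
    rintro x ⟨hx1, hx2⟩
    have hx1' : ⌊x / e⌋₊ = n := hx1
    have hx2' : 0 < x := hx2
    have h4 := Nat.floor_le (div_nonneg hx2'.le he.le)
    have h5 := Nat.lt_floor_add_one (x / e)
    rw [hx1', le_div_iff₀ he] at h4
    rw [hx1', div_lt_iff₀ he] at h5
    exact ⟨h4, by linarith⟩
  refine (measure_mono h3).trans ?_
  rw [Real.volume_Ico]
  simp

theorem main : S_FAT := by
  intro ν e G g hν he hlim hG hg hconv
  obtain ⟨P, hP⟩ : ∃ P, P = Measure.infinitePi fun _ : ℕ => ν := ⟨_, rfl⟩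
  rw [← hP] at hconv ⊢
  -- the prefactor
  obtain ⟨c, hc⟩ : ∃ c : ℕ → ℕ → ℝ, ∀ j n, c j n = (pp (e j) / e j ^ 2) * (1 - pp (e j)) ^ n :=
    ⟨_, fun _ _ => rfl⟩
  have hpp : ∀ j, 0 < pp (e j) ∧ pp (e j) < 1 ∧ pp (e j) ≤ e j ^ 2 := by
    intro j
    have h1 := he j
    unfold pp
    refine ⟨by positivity, ?_, ?_⟩
    · rw [div_lt_one (by positivity)]
      linarith
    · exact div_le_self (by positivity) (by nlinarith [sq_nonneg (e j)])
  have hc0 : ∀ j n, 0 ≤ c j n := by
    intro j n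
    rw [hc]
    have := hpp j
    have h2 : 0 ≤ 1 - pp (e j) := by linarith [this.2.1]
    have h3 := this.1.le
    positivity
  have hclim : ∀ x : ℝ, 0 < x → Tendsto (fun j => c j ⌊x / e j⌋₊) atTop (𝓝 1) := by
    intro x hx
    have h1 : Tendsto (fun j => pp (e j) / e j ^ 2) atTop (𝓝 1) := by
      have h2 : Tendsto (fun j => 1 / (1 + e j ^ 2)) atTop (𝓝 1) := by
        have h3 : Tendsto (fun j => 1 / (1 + e j ^ 2)) atTop (𝓝 (1 / (1 + 0 ^ 2))) :=
          (tendsto_const_nhds.div ((tendsto_const_nhds).add (hlim.pow 2)) (by norm_num))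
        simpa using h3
      refine h2.congr fun j => ?_
      unfold pp
      have := (he j).ne'
      field_simp
    have h4 : Tendsto (fun j => (1 - pp (e j)) ^ ⌊x / e j⌋₊) atTop (𝓝 1) := by
      have h5 : Tendsto (fun j => 1 - x * e j) atTop (𝓝 1) := by
        have := (tendsto_const_nhds (x := (1 : ℝ))).sub (hlim.const_mul x)
        simpa using this
      refine tendsto_of_tendsto_of_tendsto_of_le_of_le h5 tendsto_const_nhds (fun j => ?_)
        (fun j => ?_)
      · have h6 := one_add_mul_le_pow (a := -pp (e j)) (by linarith [(hpp j).2.1]) ⌊x / e j⌋₊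
        have h7 := Nat.floor_le (div_nonneg hx.le (he j).le)
        rw [le_div_iff₀ (he j)] at h7
        have h8 := (hpp j).2.2
        have h9 := he j
        have h10 : (⌊x / e j⌋₊ : ℝ) * pp (e j) ≤ (⌊x / e j⌋₊ : ℝ) * e j ^ 2 :=
          mul_le_mul_of_nonneg_left h8 (Nat.cast_nonneg _)
        have h11 : (⌊x / e j⌋₊ : ℝ) * e j ^ 2 ≤ x * e j := by nlinarith
        have h12 : (1 + -pp (e j)) ^ ⌊x / e j⌋₊ = (1 - pp (e j)) ^ ⌊x / e j⌋₊ := by
          rw [← sub_eq_add_neg]
        rw [h12] at h6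
        show 1 - x * e j ≤ (1 - pp (e j)) ^ ⌊x / e j⌋₊
        nlinarith
      · exact pow_le_one₀ (by linarith [(hpp j).2.1]) (by linarith [(hpp j).1])
    have h6 := h1.mul h4
    rw [mul_one] at h6
    refine h6.congr fun j => ?_
    rw [hc]
  -- the functions
  obtain ⟨K, hK⟩ : ∃ K : ℕ → ℕ → ℝ≥0∞, ∀ j n, K j n =
      ∫⁻ ω, ENNReal.ofReal (c j n * (e j * G j n ω)) ∂P := ⟨_, fun _ _ => rfl⟩
  obtain ⟨H, hH⟩ : ∃ H : ℕ → ℝ → ℝ≥0∞, ∀ j x, H j x =
      if ⌊x / e j⌋₊ < NN (e j) then K j ⌊x / e j⌋₊ else 0 := ⟨_, fun _ _ => rfl⟩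
  have hHm : ∀ j, Measurable (H j) := by
    intro j
    have hmeas : Measurable fun x : ℝ => ⌊x / e j⌋₊ := by fun_prop
    have h1 : H j = (fun n : ℕ => if n < NN (e j) then K j n else 0) ∘ fun x : ℝ => ⌊x / e j⌋₊ := by
      funext x
      rw [hH]
      rfl
    rw [h1]
    exact (measurable_from_nat).comp hmeas
  -- pointwise
  have hpt : ∀ x ∈ Set.Ioi (0 : ℝ), ∫⁻ ω, ENNReal.ofReal (g x ω) ∂P ≤
      liminf (fun j => H j x) atTop := by
    intro x hx
    have hx0 : (0 : ℝ) < x := hx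
    have h1 : ∀ᵐ ω ∂P, ENNReal.ofReal (g x ω) ≤
        liminf (fun j => ENNReal.ofReal (c j ⌊x / e j⌋₊ * (e j * G j ⌊x / e j⌋₊ ω))) atTop := by
      filter_upwards [hconv] with ω hω
      have h2 := (hclim x hx0).mul (hω x hx0)
      rw [one_mul] at h2
      exact (ENNReal.tendsto_ofReal h2).liminf_eq.ge
    refine (lintegral_mono_ae h1).trans ?_
    refine (lintegral_liminf_le fun j => ?_).trans ?_
    · exact ((((hG j ⌊x / e j⌋₊).const_mul _).const_mul _)).ennreal_ofReal
    · refine liminf_le_liminf ?_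
      have h3 : ∀ᶠ j in atTop, ⌊x / e j⌋₊ < NN (e j) := by
        have h4 : Tendsto (fun j => Real.sqrt (e j)) atTop (𝓝 0) := by
          have := (Real.continuous_sqrt.tendsto 0).comp hlim
          rw [Real.sqrt_zero] at this
          exact this
        have h5 : Tendsto (fun j => x * Real.sqrt (e j)) atTop (𝓝 0) := by
          simpa using h4.const_mul x
        filter_upwards [h5.eventually (gt_mem_nhds (show (0 : ℝ) < 1 by norm_num))] with j hj
        unfold NN
        have h6 : x / e j < 1 / (e j * Real.sqrt (e j)) := by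
          have h7 := he j
          have h8 : 0 < Real.sqrt (e j) := Real.sqrt_pos.2 h7
          rw [div_lt_div_iff₀ h7 (by positivity)]
          nlinarith
        refine lt_of_lt_of_le ?_ (le_refl _)
        rw [← Nat.cast_lt (α := ℝ)]
        exact (Nat.floor_le (div_nonneg hx0.le (he j).le)).trans_lt
          (h6.trans_le (Nat.le_ceil _))
      filter_upwards [h3] with j hj
      rw [hH, if_pos hj, hK]
  calc ∫⁻ x in Set.Ioi (0 : ℝ), ∫⁻ ω, ENNReal.ofReal (g x ω) ∂P
      ≤ ∫⁻ x in Set.Ioi (0 : ℝ), liminf (fun j => H j x) atTop :=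
        setLIntegral_mono' measurableSet_Ioi hpt
    _ ≤ liminf (fun j => ∫⁻ x in Set.Ioi (0 : ℝ), H j x) atTop := lintegral_liminf_le hHm
    _ ≤ _ := by
        refine liminf_le_liminf (Eventually.of_forall fun j => ?_)
        have h1 := lint_le (e j) (he j) (NN (e j)) (K j)
        have h2 : (∫⁻ x in Set.Ioi (0 : ℝ), H j x) = ∫⁻ x in Set.Ioi (0 : ℝ),
            (if ⌊x / e j⌋₊ < NN (e j) then K j ⌊x / e j⌋₊ else 0) := by
          refine lintegral_congr fun x => ?_
          rw [hH]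
        show (∫⁻ x in Set.Ioi (0 : ℝ), H j x) ≤ _
        rw [h2]
        refine h1.trans ?_
        rw [Finset.mul_sum]
        refine Finset.sum_le_sum fun n _ => ?_
        rw [hK]
        have h3 := (hpp j).1
        have h4 : 0 ≤ 1 - pp (e j) := by linarith [(hpp j).2.1]
        have h5 : ∀ ω, ENNReal.ofReal (c j n * (e j * G j n ω)) =
            ENNReal.ofReal (c j n * e j) * ENNReal.ofReal (G j n ω) := by
          intro ω
          rw [← ENNReal.ofReal_mul (mul_nonneg (hc0 j n) (he j).le), mul_assoc]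
        simp only [h5]
        rw [lintegral_const_mul _ (hG j n).ennreal_ofReal, ← mul_assoc, ← mul_assoc,
          ← ENNReal.ofReal_mul (he j).le, ← ENNReal.ofReal_pow h4, ← ENNReal.ofReal_mul h3.le]
        refine mul_le_mul_left (le_of_eq ?_) _
        congr 1
        rw [hc]
        have := (he j).ne'
        field_simp

end Pool.Agent.Helper91.HQ.FAT
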