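import Pool.Agent.Helper91.HQ.MXL

/-!
# HQ, parts LIM1 and LIM2: the fluid limits
-/

set_option autoImplicit false

open MeasureTheory Filter Topology
open scoped ENNReal NNReal

namespace Pool.Agent.Helper91.HQ.LIM

open Pool.Agent.Helper98.HQ Pool.Agent.Helper91.HQ.MXL

variable {e : ℕ → ℝ} {x : ℝ}

theorem div_top (hx : 0 < x) (he : ∀ j, 0 < e j) (hlim : Tendsto e atTop (𝓝 0)) :
    Tendsto (fun j => x / e j) atTop atTop := by
  have h1 : Tendsto (fun j => (e j)⁻¹) atTop atTop :=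
    (tendsto_nhdsWithin_iff.2 ⟨hlim, Eventually.of_forall fun j => he j⟩).inv_tendsto_nhdsGT_zero
  exact (h1.const_mul_atTop hx).congr fun j => (div_eq_mul_inv _ _).symm

theorem n_top (hx : 0 < x) (he : ∀ j, 0 < e j) (hlim : Tendsto e atTop (𝓝 0)) :
    Tendsto (fun j => ⌊x / e j⌋₊) atTop atTop :=
  tendsto_nat_floor_atTop.comp (div_top hx he hlim)

theorem en_lim (hx : 0 < x) (he : ∀ j, 0 < e j) (hlim : Tendsto e atTop (𝓝 0)) :
    Tendsto (fun j => e j * (⌊x / e j⌋₊ : ℝ)) atTop (𝓝 x) := by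
  have h1 : Tendsto (fun j => x - e j) atTop (𝓝 x) := by
    have := (tendsto_const_nhds (x := x)).sub hlim
    rwa [sub_zero] at this
  refine tendsto_of_tendsto_of_tendsto_of_le_of_le h1 tendsto_const_nhds (fun j => ?_) (fun j => ?_)
  · have h2 := Nat.lt_floor_add_one (x / e j)
    rw [div_lt_iff₀ (he j)] at h2
    show x - e j ≤ e j * (⌊x / e j⌋₊ : ℝ)
    nlinarith
  · have h2 := Nat.floor_le (div_nonneg hx.le (he j).le)
    rw [le_div_iff₀ (he j)] at h2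
    show e j * (⌊x / e j⌋₊ : ℝ) ≤ x
    nlinarith

/-- if `f n / n → c` then `e f(n) → x c` -/
theorem ef_lim (hx : 0 < x) (he : ∀ j, 0 < e j) (hlim : Tendsto e atTop (𝓝 0)) {f : ℕ → ℝ} {c : ℝ}
    (hf : Tendsto (fun n : ℕ => f n / n) atTop (𝓝 c)) :
    Tendsto (fun j => e j * f ⌊x / e j⌋₊) atTop (𝓝 (x * c)) := by
  have h1 := (en_lim hx he hlim).mul (hf.comp (n_top hx he hlim))
  refine h1.congr' ?_
  filter_upwards [(n_top hx he hlim).eventually (eventually_gt_atTop 0)] with j hj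
  have hj' : ((⌊x / e j⌋₊ : ℕ) : ℝ) ≠ 0 := by exact_mod_cast hj.ne'
  show e j * (⌊x / e j⌋₊ : ℝ) * (f ⌊x / e j⌋₊ / (⌊x / e j⌋₊ : ℝ)) = e j * f ⌊x / e j⌋₊
  field_simp

theorem a_lim (β : ℝ) (hlim : Tendsto e atTop (𝓝 0)) :
    Tendsto (fun j => 1 - β * e j) atTop (𝓝 1) := by
  have := (tendsto_const_nhds (x := (1 : ℝ))).sub (hlim.const_mul β)
  simpa using this

theorem lim1 (m : ℕ) (A B β x : ℝ) (e : ℕ → ℝ) (ω : ℕ → ℝ × ℝ) (hm : 1 ≤ m)
    (hx : 0 < x) (he : ∀ j, 0 < e j) (hlim : Tendsto e atTop (𝓝 0)) (hω : Gd A B ω) :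
    Tendsto (fun j => e j * F1 m (1 - β * e j) (1 + β / e j) ω ⌊x / e j⌋₊) atTop
      (𝓝 (g1 m A B x (β * (ω 0).2))) := by
  have hS := ef_lim hx he hlim hω.S
  have hT := ef_lim hx he hlim hω.T
  have hM := ef_lim hx he hlim (main A B ω hω)
  have ha := a_lim β hlim
  have hm0 : (m : ℝ) ≠ 0 := by
    have : 0 < m := hm
    exact_mod_cast this.ne'
  have hm1 : (m : ℝ) + 1 ≠ 0 := by positivity
  -- the first term
  have h1 : Tendsto (fun j => e j * ((∑ i ∈ Finset.Icc 1 ⌊x / e j⌋₊,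
      ((1 - β * e j) * (ω i).2 - m * (ω i).1)) / m)) atTop (𝓝 (x * (B - m * A) / m)) := by
    have h2 := ((ha.mul hS).sub (hT.const_mul (m : ℝ))).div_const (m : ℝ)
    have h3 : (1 * (x * B) - m * (x * A)) / (m : ℝ) = x * (B - m * A) / m := by ring
    rw [h3] at h2
    refine h2.congr fun j => ?_
    rw [Finset.sum_sub_distrib, ← Finset.mul_sum, ← Finset.mul_sum]
    ring
  have h4 : Tendsto (fun j => e j * (((1 + β / e j) * (ω 0).2 - (ω 0).1 +
      ∑ i ∈ Finset.Icc 1 ⌊x / e j⌋₊, ((1 - β * e j) * (ω i).2 - (m + 1) * (ω i).1)) / (m + 1)))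
      atTop (𝓝 ((β * (ω 0).2 - x * ((m + 1) * A - B)) / (m + 1))) := by
    have h5 : Tendsto (fun j => (e j + β) * (ω 0).2 - e j * (ω 0).1) atTop
        (𝓝 ((0 + β) * (ω 0).2 - 0 * (ω 0).1)) :=
      ((hlim.add_const β).mul_const _).sub (hlim.mul_const _)
    have h6 := (h5.add ((ha.mul hS).sub (hT.const_mul ((m : ℝ) + 1)))).div_const ((m : ℝ) + 1)
    have h7 : ((0 + β) * (ω 0).2 - 0 * (ω 0).1 + (1 * (x * B) - ((m : ℝ) + 1) * (x * A))) /
        ((m : ℝ) + 1) = (β * (ω 0).2 - x * ((m + 1) * A - B)) / (m + 1) := by ring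
    rw [h7] at h6
    refine h6.congr fun j => ?_
    rw [Finset.sum_sub_distrib, ← Finset.mul_sum, ← Finset.mul_sum]
    have := (he j).ne'
    field_simp
  have h8 := (h1.min h4).sub hM
  rw [mul_zero, sub_zero] at h8
  refine h8.congr fun j => ?_
  unfold F1
  rw [mul_sub, mul_min_of_nonneg _ _ (he j).le]

/-- the sums -/
noncomputable def VV (m : ℕ) (a : ℝ) (ω : ℕ → ℝ × ℝ) (n : ℕ) : ℝ :=
  a * (∑ j ∈ Finset.Icc 1 n, (ω j).2) - m * ∑ j ∈ Finset.Icc 1 n, (ω j).1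

theorem VV_succ (m : ℕ) (a : ℝ) (ω : ℕ → ℝ × ℝ) (n : ℕ) :
    VV m a ω (n + 1) = VV m a ω n + a * (ω (n + 1)).2 - m * (ω (n + 1)).1 := by
  unfold VV
  rw [Finset.sum_Icc_succ_top (by omega), Finset.sum_Icc_succ_top (by omega)]
  ring

theorem VV_zero (m : ℕ) (a : ℝ) (ω : ℕ → ℝ × ℝ) : VV m a ω 0 = 0 := by
  unfold VV
  simp

theorem UU_ge (m : ℕ) (a : ℝ) (ω : ℕ → ℝ × ℝ) : ∀ n, VV m a ω n ≤ UU m a ω n
  | 0 => by
      rw [VV_zero]
      exact le_rfl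
  | n + 1 => by
      have h1 := UU_ge m a ω n
      have h2 : UU m a ω (n + 1) = max (UU m a ω n + a * (ω (n + 1)).2 - m * (ω (n + 1)).1) 0 := rfl
      rw [h2, VV_succ]
      exact le_max_of_le_left (by linarith)

theorem UU_nonneg (m : ℕ) (a : ℝ) (ω : ℕ → ℝ × ℝ) : ∀ n, 0 ≤ UU m a ω n
  | 0 => le_rfl
  | _ + 1 => le_max_right _ _

theorem UU_le (m : ℕ) (a D E : ℝ) (ω : ℕ → ℝ × ℝ) (N : ℕ)
    (h : ∀ i ≤ N, |VV m a ω i - i * D| ≤ E) :
    ∀ n ≤ N, UU m a ω n ≤ VV m a ω n - n * D + n * max D 0 + E := by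
  intro n
  induction n with
  | zero =>
    intro _
    have h1 := h 0 (Nat.zero_le _)
    rw [VV_zero] at *
    have h2 : UU m a ω 0 = 0 := rfl
    have h3 := abs_nonneg ((0 : ℝ) - ((0 : ℕ) : ℝ) * D)
    rw [h2]
    push_cast at *
    simp only [zero_mul, sub_zero, abs_zero, add_zero, zero_add] at *
    linarith
  | succ n ih =>
    intro hn
    have h1 := ih (by omega)
    have h2 : UU m a ω (n + 1) = max (UU m a ω n + a * (ω (n + 1)).2 - m * (ω (n + 1)).1) 0 := rfl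
    have h3 := h (n + 1) hn
    rw [abs_le] at h3
    have h4 := VV_succ m a ω n
    have h5 : D ≤ max D 0 := le_max_left _ _
    have h6 : 0 ≤ max D 0 := le_max_right _ _
    rw [h2]
    refine max_le ?_ ?_
    · push_cast at *
      nlinarith
    · have h7 : (0 : ℝ) ≤ ((n + 1 : ℕ) : ℝ) * max D 0 := by positivity
      linarith [h3.1]

theorem UU_close (m : ℕ) (a D E : ℝ) (ω : ℕ → ℝ × ℝ) (N : ℕ)
    (h : ∀ i ≤ N, |VV m a ω i - i * D| ≤ E) :
    |UU m a ω N - N * max D 0| ≤ 2 * E := by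
  have h1 := UU_le m a D E ω N h N le_rfl
  have h2 := UU_ge m a ω N
  have h3 := UU_nonneg m a ω N
  have h4 := h N le_rfl
  have hE : 0 ≤ E := (abs_nonneg _).trans h4
  rw [abs_le] at h4 ⊢
  constructor
  · rcases le_total D 0 with h5 | h5
    · rw [max_eq_right h5]
      linarith
    · rw [max_eq_left h5]
      linarith [h4.1]
  · linarith [h4.2]

theorem avg_dev (s : ℕ → ℝ) (B : ℝ)
    (h : Tendsto (fun n : ℕ => (∑ j ∈ Finset.Icc 1 n, s j) / n) atTop (𝓝 B)) :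
    Tendsto (fun n : ℕ => |(∑ j ∈ Finset.Icc 1 n, s j) - n * B| / n) atTop (𝓝 0) := by
  have h1 := (h.sub_const B).abs
  rw [sub_self, abs_zero] at h1
  refine h1.congr' ?_
  filter_upwards [eventually_gt_atTop 0] with n hn
  have hn' : (0 : ℝ) < n := by exact_mod_cast hn
  rw [eq_div_iff hn'.ne', ← abs_of_pos hn', ← abs_mul]
  congr 1
  rw [abs_of_pos hn']
  field_simp

theorem lim2 (m : ℕ) (A B β x : ℝ) (e : ℕ → ℝ) (ω : ℕ → ℝ × ℝ) (hm : 1 ≤ m) (hβ : 0 < β)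
    (hx : 0 < x) (he : ∀ j, 0 < e j) (hlim : Tendsto e atTop (𝓝 0)) (hω : Gd A B ω) :
    Tendsto (fun j => e j * F2 m (1 - β * e j) (1 + β / e j) ω ⌊x / e j⌋₊) atTop
      (𝓝 (g2 m A B x (β * (ω 0).2))) := by
  have hS := ef_lim hx he hlim hω.S
  have hT := ef_lim hx he hlim hω.T
  have hM := ef_lim hx he hlim (main A B ω hω)
  have hdS := ef_lim hx he hlim (tendsto_mx (fun n => |(∑ j ∈ Finset.Icc 1 n, (ω j).2) - n * B|)
    (fun n => abs_nonneg _) (avg_dev _ B hω.S))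
  have hdT := ef_lim hx he hlim (tendsto_mx (fun n => |(∑ j ∈ Finset.Icc 1 n, (ω j).1) - n * A|)
    (fun n => abs_nonneg _) (avg_dev _ A hω.T))
  have hm0 : (m : ℝ) ≠ 0 := by
    have : 0 < m := hm
    exact_mod_cast this.ne'
  have hmx : ∀ n : ℕ, 0 ≤ ∑ j ∈ Finset.Icc 1 n, (ω j).2 := fun n =>
    Finset.sum_nonneg fun j _ => (hω.nn j).2
  -- the error
  obtain ⟨E, hE⟩ : ∃ E : ℕ → ℝ, ∀ j, E j =
      mx (fun n => |(∑ i ∈ Finset.Icc 1 n, (ω i).2) - n * B|) ⌊x / e j⌋₊ +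
      β * e j * (∑ i ∈ Finset.Icc 1 ⌊x / e j⌋₊, (ω i).2) +
      m * mx (fun n => |(∑ i ∈ Finset.Icc 1 n, (ω i).1) - n * A|) ⌊x / e j⌋₊ := ⟨_, fun _ => rfl⟩
  have hElim : Tendsto (fun j => e j * E j) atTop (𝓝 0) := by
    have h1 := (hdS.add ((hlim.const_mul β).mul hS)).add (hdT.const_mul (m : ℝ))
    simp only [mul_zero, zero_mul, add_zero] at h1
    refine h1.congr fun j => ?_
    rw [hE]
    ring
  have hclose : ∀ j, |UU m (1 - β * e j) ω ⌊x / e j⌋₊ -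
      (⌊x / e j⌋₊ : ℝ) * max (B - m * A) 0| ≤ 2 * E j := by
    intro j
    refine UU_close m _ (B - m * A) (E j) ω _ fun i hi => ?_
    have h1 := le_mx (fun n => |(∑ i ∈ Finset.Icc 1 n, (ω i).2) - n * B|) _ i hi
    have h2 := le_mx (fun n => |(∑ i ∈ Finset.Icc 1 n, (ω i).1) - n * A|) _ i hi
    have h3 : (∑ l ∈ Finset.Icc 1 i, (ω l).2) ≤ ∑ l ∈ Finset.Icc 1 ⌊x / e j⌋₊, (ω l).2 := by
      refine Finset.sum_le_sum_of_subset_of_nonneg ?_ (fun l _ _ => (hω.nn l).2)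
      exact Finset.Icc_subset_Icc_right hi
    have h4 : VV m (1 - β * e j) ω i - i * (B - m * A) =
        ((∑ l ∈ Finset.Icc 1 i, (ω l).2) - i * B) - β * e j * (∑ l ∈ Finset.Icc 1 i, (ω l).2) -
          m * ((∑ l ∈ Finset.Icc 1 i, (ω l).1) - i * A) := by
      unfold VV
      ring
    have h5 : 0 ≤ β * e j := mul_nonneg hβ.le (he j).le
    have h6 : β * e j * (∑ l ∈ Finset.Icc 1 i, (ω l).2) ≤
        β * e j * ∑ l ∈ Finset.Icc 1 ⌊x / e j⌋₊, (ω l).2 := mul_le_mul_of_nonneg_left h3 h5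
    have h7 : 0 ≤ β * e j * (∑ l ∈ Finset.Icc 1 i, (ω l).2) := mul_nonneg h5 (hmx i)
    have h8 : (m : ℝ) * |(∑ l ∈ Finset.Icc 1 i, (ω l).1) - i * A| ≤
        m * mx (fun n => |(∑ i ∈ Finset.Icc 1 n, (ω i).1) - n * A|) ⌊x / e j⌋₊ :=
      mul_le_mul_of_nonneg_left h2 m.cast_nonneg
    rw [h4, hE]
    calc |((∑ l ∈ Finset.Icc 1 i, (ω l).2) - i * B) - β * e j * (∑ l ∈ Finset.Icc 1 i, (ω l).2) -
          m * ((∑ l ∈ Finset.Icc 1 i, (ω l).1) - i * A)|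
        ≤ |(∑ l ∈ Finset.Icc 1 i, (ω l).2) - i * B| +
          |β * e j * (∑ l ∈ Finset.Icc 1 i, (ω l).2)| +
          |(m : ℝ) * ((∑ l ∈ Finset.Icc 1 i, (ω l).1) - i * A)| :=
          (abs_sub _ _).trans (by gcongr; exact abs_sub _ _)
      _ = |(∑ l ∈ Finset.Icc 1 i, (ω l).2) - i * B| +
          β * e j * (∑ l ∈ Finset.Icc 1 i, (ω l).2) +
          m * |(∑ l ∈ Finset.Icc 1 i, (ω l).1) - i * A| := by
          rw [abs_of_nonneg h7, abs_mul, abs_of_nonneg (m.cast_nonneg : (0 : ℝ) ≤ m)]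
      _ ≤ _ := by
          have h1' : |(∑ l ∈ Finset.Icc 1 i, (ω l).2) - i * B| ≤
            mx (fun n => |(∑ i ∈ Finset.Icc 1 n, (ω i).2) - n * B|) ⌊x / e j⌋₊ := h1
          linarith
  have hU : Tendsto (fun j => e j * UU m (1 - β * e j) ω ⌊x / e j⌋₊) atTop
      (𝓝 (x * max (B - m * A) 0)) := by
    have h1 := (en_lim hx he hlim).mul_const (max (B - m * A) 0)
    have h2 : Tendsto (fun j => e j * UU m (1 - β * e j) ω ⌊x / e j⌋₊ -
        e j * (⌊x / e j⌋₊ : ℝ) * max (B - m * A) 0) atTop (𝓝 0) := by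
      refine squeeze_zero_norm (fun j => ?_) (by simpa using hElim.const_mul 2)
      have h3 := hclose j
      rw [Real.norm_eq_abs]
      have h4 : e j * UU m (1 - β * e j) ω ⌊x / e j⌋₊ -
        e j * (⌊x / e j⌋₊ : ℝ) * max (B - m * A) 0 = e j * (UU m (1 - β * e j) ω ⌊x / e j⌋₊ -
          (⌊x / e j⌋₊ : ℝ) * max (B - m * A) 0) := by ring
      rw [h4, abs_mul, abs_of_pos (he j)]
      have h5 := mul_le_mul_of_nonneg_left h3 (he j).le
      linarith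
    have h3 := h2.add h1
    rw [zero_add] at h3
    refine h3.congr fun j => ?_
    ring
  have hT' : Tendsto (fun j => e j * ∑ i ∈ Finset.range (⌊x / e j⌋₊ + 1), (ω i).1) atTop
      (𝓝 (x * A)) := by
    have h1 := (hlim.mul_const (ω 0).1).add hT
    rw [zero_mul, zero_add] at h1
    refine h1.congr fun j => ?_
    have h2 : Finset.range (⌊x / e j⌋₊ + 1) = insert 0 (Finset.Icc 1 ⌊x / e j⌋₊) := by
      ext l
      simp only [Finset.mem_range, Finset.mem_insert, Finset.mem_Icc]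
      omega
    rw [h2, Finset.sum_insert (by simp)]
    ring
  have h5 : Tendsto (fun j => (e j + β) * (ω 0).2) atTop (𝓝 ((0 + β) * (ω 0).2)) :=
    (hlim.add_const β).mul_const _
  have h6 := ((h5.sub hT').sub hM).sub (hU.div_const (m : ℝ))
  have h7 : (0 + β) * (ω 0).2 - x * A - x * 0 - x * max (B - m * A) 0 / (m : ℝ) =
      g2 m A B x (β * (ω 0).2) := by
    unfold g2
    ring
  rw [h7] at h6
  refine h6.congr fun j => ?_
  unfold F2
  have := (he j).ne'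
  field_simp

theorem main1 : S_LIM1 := fun m A B β x e ω hm _ hx he hlim hω =>
  lim1 m A B β x e ω hm hx he hlim hω

theorem main2 : S_LIM2 := fun m A B β x e ω hm hβ hx he hlim hω =>
  lim2 m A B β x e ω hm hβ hx he hlim hω

end Pool.Agent.Helper91.HQ.LIM
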