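import Pool.Agent.Helper98.HQ.Spec

/-!
# HQ, part MXL
-/

set_option autoImplicit false

open MeasureTheory Filter Topology
open scoped ENNReal NNReal

namespace Pool.Agent.Helper91.HQ.MXL

open Pool.Agent.Helper98.HQ

/-- running maximum -/
noncomputable def mx (f : ℕ → ℝ) : ℕ → ℝ
  | 0 => f 0
  | n + 1 => max (mx f n) (f (n + 1))

theorem le_mx (f : ℕ → ℝ) : ∀ n i : ℕ, i ≤ n → f i ≤ mx f n
  | 0, i, h => by
      rw [Nat.le_zero.1 h]
      exact le_rfl
  | n + 1, i, h => by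
      rcases Nat.lt_or_ge i (n + 1) with h1 | h1
      · exact (le_mx f n i (by omega)).trans (le_max_left _ _)
      · have : i = n + 1 := by omega
        rw [this]
        exact le_max_right _ _

theorem tendsto_mx (f : ℕ → ℝ) (h0 : ∀ n, 0 ≤ f n)
    (hf : Tendsto (fun n : ℕ => f n / n) atTop (𝓝 0)) :
    Tendsto (fun n : ℕ => mx f n / n) atTop (𝓝 0) := by
  have hb : ∀ ε : ℝ, 0 < ε → ∃ K : ℝ, 0 ≤ K ∧ ∀ n : ℕ, mx f n ≤ K + ε * n := by
    intro ε hε
    obtain ⟨n0, hn0⟩ := (Metric.tendsto_atTop.1 hf) ε hε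
    have h1 : ∀ n : ℕ, max n0 1 ≤ n → f n ≤ ε * n := by
      intro n hn
      have h2 := hn0 n (by omega)
      rw [Real.dist_eq, sub_zero, abs_of_nonneg (div_nonneg (h0 n) n.cast_nonneg)] at h2
      have hz' : (0 : ℝ) < n := by
        have : 0 < n := by omega
        exact_mod_cast this
      exact ((div_lt_iff₀ hz').1 h2).le
    refine ⟨mx f (max n0 1), (h0 _).trans (le_mx f _ _ le_rfl), fun n => ?_⟩
    have hK : 0 ≤ mx f (max n0 1) := (h0 _).trans (le_mx f _ _ le_rfl)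
    induction n with
    | zero =>
      have h2 : mx f 0 = f 0 := rfl
      have h3 := le_mx f (max n0 1) 0 (Nat.zero_le _)
      rw [h2]
      push_cast
      linarith
    | succ n ih =>
      have h2 : mx f (n + 1) = max (mx f n) (f (n + 1)) := rfl
      rw [h2]
      refine max_le ?_ ?_
      · push_cast
        nlinarith
      · rcases le_total (n + 1) (max n0 1) with h3 | h3
        · have h4 := le_mx f _ _ h3
          have h5 : (0 : ℝ) ≤ ε * ((n + 1 : ℕ) : ℝ) := by positivity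
          linarith
        · have h4 := h1 _ h3
          linarith
  have hnn : ∀ n, 0 ≤ mx f n := fun n => (h0 n).trans (le_mx f n n le_rfl)
  rw [Metric.tendsto_atTop]
  intro δ hδ
  obtain ⟨K, hK0, hK⟩ := hb (δ / 2) (by positivity)
  obtain ⟨N, hN⟩ := exists_nat_gt (2 * K / δ)
  refine ⟨N + 1, fun n hn => ?_⟩
  have hn1 : (N : ℝ) + 1 ≤ n := by exact_mod_cast hn
  have hn0 : (0 : ℝ) < n := by
    have : (0 : ℝ) ≤ N := N.cast_nonneg
    linarith
  rw [Real.dist_eq, sub_zero, abs_of_nonneg (div_nonneg (hnn n) hn0.le), div_lt_iff₀ hn0]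
  have h1 : 2 * K < δ * n := by
    have h2 := (div_lt_iff₀ hδ).1 hN
    nlinarith
  have h2 := hK n
  nlinarith

/-- from averages to terms -/
theorem term_of_avg (s : ℕ → ℝ) (B : ℝ)
    (h : Tendsto (fun n : ℕ => (∑ j ∈ Finset.Icc 1 n, s j) / n) atTop (𝓝 B)) :
    Tendsto (fun n : ℕ => s n / n) atTop (𝓝 0) := by
  rw [← tendsto_add_atTop_iff_nat 1]
  have h1 := (tendsto_add_atTop_iff_nat 1).2 h
  have h2 : Tendsto (fun n : ℕ => (n : ℝ) / ((n + 1 : ℕ) : ℝ)) atTop (𝓝 1) := by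
    have := tendsto_natCast_div_add_atTop (1 : ℝ)
    refine this.congr (fun n => ?_)
    push_cast
    rfl
  have h3 := h1.sub (h.mul h2)
  rw [mul_one, sub_self] at h3
  refine h3.congr' ?_
  filter_upwards [eventually_gt_atTop 0] with n hn
  have hn' : (n : ℝ) ≠ 0 := by exact_mod_cast hn.ne'
  have hn1 : ((n + 1 : ℕ) : ℝ) ≠ 0 := by positivity
  rw [Finset.sum_Icc_succ_top (by omega)]
  field_simp
  ring

theorem MX_eq (ω : ℕ → ℝ × ℝ) (h : ∀ j, 0 ≤ (ω j).2) : ∀ n : ℕ, MX ω n ≤ mx (fun j => (ω j).2) n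
  | 0 => h 0
  | n + 1 => max_le_max (MX_eq ω h n) le_rfl

theorem MX_nonneg (ω : ℕ → ℝ × ℝ) : ∀ n : ℕ, 0 ≤ MX ω n
  | 0 => le_rfl
  | n + 1 => (MX_nonneg ω n).trans (le_max_left _ _)

theorem main : S_MXL := by
  intro A B ω hω
  have h1 := tendsto_mx (fun j => (ω j).2) (fun j => (hω.nn j).2) (term_of_avg _ B hω.S)
  refine squeeze_zero (fun n => div_nonneg (MX_nonneg ω n) n.cast_nonneg) (fun n => ?_) h1
  exact div_le_div_of_nonneg_right (MX_eq ω (fun j => (hω.nn j).2) n) n.cast_nonneg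

end Pool.Agent.Helper91.HQ.MXL
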